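import Mathlib

/-!
# 1-avoidance couplings of Bernoulli sequences: upper bounds

`k` walkers on `{0, 1}` move in turn; every walker is an i.i.d. Bernoulli(`p`) sequence and no two
of them are ever at `1` at the same time.  We show `(k - 1) p ≤ (1 - p) ^ 2`, and `p ≤ 1 / 3`
for two walkers.
-/

open MeasureTheory ProbabilityTheory

namespace Pool.Agent.Q15.AvoidB

/-- The interleaved sequence `Z`: the walkers have the numbers `0, …, k - 1`, and
`Z_{tk + j}` is the value of the walker `j` at time `t`. -/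
def interleaved {Ω : Type*} {k : ℕ} (hk : 0 < k) (X : Fin k → ℕ → Ω → Bool) (m : ℕ) (ω : Ω) :
    Bool :=
  X ⟨m % k, Nat.mod_lt m hk⟩ (m / k) ω

/-- A 1-avoidance coupling of `k` Bernoulli(`p`) walkers on the probability space `(Ω, μ)`: for each
walker `j` the sequence `X j` is i.i.d. with `P(X j t = 1) = p`, and almost surely every block of
`k` consecutive entries of the interleaved sequence contains at most one `1`. -/
def IsCoupling {Ω : Type*} [MeasurableSpace Ω] (μ : Measure Ω) {k : ℕ} (hk : 0 < k) (p : ℝ)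
    (X : Fin k → ℕ → Ω → Bool) : Prop :=
  (∀ j t, Measurable (X j t)) ∧ (∀ j, iIndepFun (X j) μ) ∧
    (∀ j t, μ.real {ω | X j t ω = true} = p) ∧
    ∀ᵐ ω ∂μ, ∀ a b : ℕ, a < b → b < a + k →
      ¬ (interleaved hk X a ω = true ∧ interleaved hk X b ω = true)

/-- A 1-avoidance coupling of `k` Bernoulli(`p`) walkers exists. -/
def HasCoupling (k : ℕ) (p : ℝ) : Prop :=
  ∃ (hk : 0 < k) (Ω : Type) (_ : MeasurableSpace Ω) (μ : Measure Ω) (X : Fin k → ℕ → Ω → Bool),
    IsProbabilityMeasure μ ∧ IsCoupling μ hk p X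

/-- `p_k`: the supremum of all `p` for which a 1-avoidance coupling of `k` Bernoulli(`p`) walkers
exists. -/
noncomputable def pSup (k : ℕ) : ℝ := sSup {p : ℝ | HasCoupling k p}

section

variable {Ω : Type*} [MeasurableSpace Ω] {μ : Measure Ω}

theorem real_false [IsProbabilityMeasure μ] {f : Ω → Bool} (hf : Measurable f) {p : ℝ}
    (hp : μ.real {ω | f ω = true} = p) : μ.real {ω | f ω = false} = 1 - p := by
  have h : {ω | f ω = false} = {ω | f ω = true}ᶜ := by
    ext ω
    simp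
  have h1 : MeasurableSet {ω | f ω = true} := hf (MeasurableSet.singleton true)
  rw [h, probReal_compl_eq_one_sub h1, hp]

theorem inter_two [IsProbabilityMeasure μ] {X : ℕ → Ω → Bool} (hX : iIndepFun X μ)
    (hm : ∀ t, Measurable (X t)) {p : ℝ} (hp : ∀ t, μ.real {ω | X t ω = true} = p) :
    μ.real {ω | X 0 ω = false ∧ X 1 ω = false} = (1 - p) ^ 2 := by
  have h1 := (hX.indepFun (i := 0) (j := 1) (by norm_num)).measure_inter_preimage_eq_mul
    {false} {false} (MeasurableSet.singleton _) (MeasurableSet.singleton _)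
  have h2 : {ω | X 0 ω = false ∧ X 1 ω = false} = X 0 ⁻¹' {false} ∩ X 1 ⁻¹' {false} := by
    ext ω
    simp
  rw [h2, Measure.real, h1, ENNReal.toReal_mul]
  have h3 := real_false (hm 0) (hp 0)
  have h4 := real_false (hm 1) (hp 1)
  rw [Measure.real] at h3 h4
  have e3 : X 0 ⁻¹' {false} = {ω | X 0 ω = false} := rfl
  have e4 : X 1 ⁻¹' {false} = {ω | X 1 ω = false} := rfl
  rw [e3, e4, h3, h4]
  ring

omit [MeasurableSpace Ω] in
/-- the value of a walker is an entry of the interleaved sequence -/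
theorem interleaved_eq {k : ℕ} (hk : 0 < k) (X : Fin k → ℕ → Ω → Bool) (j : Fin k) (t : ℕ)
    (ω : Ω) : interleaved hk X (t * k + j) ω = X j t ω := by
  have h1 : (t * k + (j : ℕ)) % k = j := by
    rw [Nat.mul_comm, Nat.mul_add_mod, Nat.mod_eq_of_lt j.2]
  have h2 : (t * k + (j : ℕ)) / k = t := by
    rw [Nat.mul_comm, Nat.mul_add_div hk, Nat.div_eq_of_lt j.2, Nat.add_zero]
  have h3 : (⟨(t * k + (j : ℕ)) % k, Nat.mod_lt _ hk⟩ : Fin k) = j := Fin.ext h1
  unfold interleaved
  rw [h3, h2]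

omit [MeasurableSpace Ω] in
theorem no_two {k : ℕ} (hk : 0 < k) (X : Fin k → ℕ → Ω → Bool) (ω : Ω)
    (h : ∀ a b : ℕ, a < b → b < a + k →
      ¬ (interleaved hk X a ω = true ∧ interleaved hk X b ω = true)) :
    (∀ (t : ℕ) (i j : Fin k), i < j → ¬ (X i t ω = true ∧ X j t ω = true)) ∧
      ∀ (t : ℕ) (i j : Fin k), i < j → ¬ (X j t ω = true ∧ X i (t + 1) ω = true) := by
  refine ⟨fun t i j hij => ?_, fun t i j hij => ?_⟩
  · have h1 := h (t * k + i) (t * k + j) (by have := Fin.lt_def.mp hij; omega)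
      (by have := j.2; omega)
    rwa [interleaved_eq, interleaved_eq] at h1
  · have h1 := h (t * k + j) ((t + 1) * k + i)
      (by have := j.2; rw [Nat.add_mul, Nat.one_mul]; omega)
      (by have := Fin.lt_def.mp hij; rw [Nat.add_mul, Nat.one_mul]; omega)
    rwa [interleaved_eq, interleaved_eq] at h1

/-- The expected number of ones between two moves of the first walker. -/
theorem first_moment [IsProbabilityMeasure μ] {k : ℕ} (hk : 0 < k) {p : ℝ}
    {X : Fin k → ℕ → Ω → Bool} (h : IsCoupling μ hk p X) : ((k : ℝ) - 1) * p ≤ (1 - p) ^ 2 := by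
  obtain ⟨hm, hi, hp, ha⟩ := h
  set z : Fin k := ⟨0, hk⟩ with hz
  have hms : ∀ j, MeasurableSet {ω | X j 0 ω = true} := fun j => hm j 0 (MeasurableSet.singleton _)
  have hmF : MeasurableSet {ω | X z 0 ω = false ∧ X z 1 ω = false} :=
    (hm z 0 (MeasurableSet.singleton false)).inter (hm z 1 (MeasurableSet.singleton false))
  have hpos : ∀ j : Fin k, j ≠ z → z < j := by
    intro j hj
    rw [Fin.lt_def]
    have : (j : ℕ) ≠ 0 := fun h0 => hj (Fin.ext h0)
    have h1 : (z : ℕ) = 0 := rfl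
    omega
  have hle : (fun ω => ∑ j ∈ (Finset.univ.erase z : Finset (Fin k)),
      {ω | X j 0 ω = true}.indicator (1 : Ω → ℝ) ω) ≤ᵐ[μ]
      fun ω => {ω | X z 0 ω = false ∧ X z 1 ω = false}.indicator (1 : Ω → ℝ) ω := by
    filter_upwards [ha] with ω hω
    obtain ⟨h1, h2⟩ := no_two hk X ω hω
    by_cases hex : ∃ j : Fin k, j ≠ z ∧ X j 0 ω = true
    · obtain ⟨j, hj, hjt⟩ := hex
      have hF : ω ∈ {ω | X z 0 ω = false ∧ X z 1 ω = false} := by
        refine ⟨?_, ?_⟩
        · by_contra hc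
          exact h1 0 z j (hpos j hj) ⟨by simpa using hc, hjt⟩
        · by_contra hc
          exact h2 0 z j (hpos j hj) ⟨hjt, by simpa using hc⟩
      rw [Set.indicator_of_mem hF, Finset.sum_eq_single j]
      · rw [Set.indicator_of_mem (show ω ∈ {ω | X j 0 ω = true} from hjt)]
      · intro i _ hij
        refine Set.indicator_of_notMem (fun hc => ?_) _
        rcases lt_or_gt_of_ne hij with hlt | hlt
        · exact h1 0 i j hlt ⟨hc, hjt⟩
        · exact h1 0 j i hlt ⟨hjt, hc⟩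
      · intro hc
        exact absurd (Finset.mem_erase.mpr ⟨hj, Finset.mem_univ _⟩) hc
    · push Not at hex
      rw [Finset.sum_eq_zero]
      · exact Set.indicator_nonneg (fun _ _ => zero_le_one) ω
      · intro j hj
        refine Set.indicator_of_notMem (fun hc => ?_) _
        exact hex j (Finset.mem_erase.mp hj).1 hc
  have hint : ∀ j, Integrable (fun ω => {ω | X j 0 ω = true}.indicator (1 : Ω → ℝ) ω) μ :=
    fun j => (integrable_const (1 : ℝ)).indicator (hms j)
  have hintF : Integrable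
      (fun ω => {ω | X z 0 ω = false ∧ X z 1 ω = false}.indicator (1 : Ω → ℝ) ω) μ :=
    (integrable_const (1 : ℝ)).indicator hmF
  have h3 := integral_mono_ae (integrable_finsetSum _ fun j _ => hint j) hintF hle
  rw [integral_finsetSum _ fun j _ => hint j] at h3
  have h4 : ∀ j, ∫ ω, {ω | X j 0 ω = true}.indicator (1 : Ω → ℝ) ω ∂μ = p := by
    intro j
    rw [← hp j 0]
    exact integral_indicator_one (hms j)
  have h5 : ∫ ω, {ω | X z 0 ω = false ∧ X z 1 ω = false}.indicator (1 : Ω → ℝ) ω ∂μ =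
      (1 - p) ^ 2 := by
    rw [← inter_two (hi z) (hm z) (hp z)]
    exact integral_indicator_one hmF
  rw [h5, Finset.sum_congr rfl fun j _ => h4 j, Finset.sum_const,
    Finset.card_erase_of_mem (Finset.mem_univ _), Finset.card_univ, Fintype.card_fin,
    nsmul_eq_mul, Nat.cast_sub hk, Nat.cast_one] at h3
  exact h3

/-- no two consecutive zeros among the entries `0, …, m` -/
def NoZZ (X : ℕ → Ω → Bool) (m : ℕ) : Set Ω :=
  {ω | ∀ i < m, ¬ (X i ω = false ∧ X (i + 1) ω = false)}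

/-- the set of words `0, …, m` without two consecutive zeros -/
def words (m : ℕ) : Set (Finset.range (m + 1) → Bool) :=
  {s | ∀ (i : ℕ) (hi : i < m), ¬ (s ⟨i, Finset.mem_range.mpr (by omega)⟩ = false ∧
    s ⟨i + 1, Finset.mem_range.mpr (by omega)⟩ = false)}

theorem step [IsProbabilityMeasure μ] {X : ℕ → Ω → Bool} (hX : iIndepFun X μ)
    (hm : ∀ t, Measurable (X t)) (m : ℕ) (A : Set (Finset.range (m + 1) → Bool)) (v : Bool) :
    μ.real ({ω | (fun i : Finset.range (m + 1) => X i ω) ∈ A} ∩ {ω | X (m + 1) ω = v}) =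
      μ.real {ω | (fun i : Finset.range (m + 1) => X i ω) ∈ A} *
        μ.real {ω | X (m + 1) ω = v} := by
  have hd : Disjoint (Finset.range (m + 1)) {m + 1} := by
    rw [Finset.disjoint_singleton_right, Finset.mem_range]
    omega
  have h1 := (hX.indepFun_finset (Finset.range (m + 1)) {m + 1} hd hm).measure_inter_preimage_eq_mul
    A {s | s ⟨m + 1, Finset.mem_singleton_self _⟩ = v} (Set.toFinite _).measurableSet
    (Set.toFinite _).measurableSet
  have e2 : (fun (ω : Ω) (i : ({m + 1} : Finset ℕ)) => X i ω) ⁻¹'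
      {s | s ⟨m + 1, Finset.mem_singleton_self _⟩ = v} = {ω | X (m + 1) ω = v} := rfl
  have e1 : (fun (ω : Ω) (i : Finset.range (m + 1)) => X i ω) ⁻¹' A =
      {ω | (fun i : Finset.range (m + 1) => X i ω) ∈ A} := rfl
  rw [e2, e1] at h1
  rw [Measure.real, h1, ENNReal.toReal_mul]
  rfl

omit [MeasurableSpace Ω] in
theorem noZZ_eq (X : ℕ → Ω → Bool) (m : ℕ) :
    NoZZ X m = {ω | (fun i : Finset.range (m + 1) => X i ω) ∈ words m} := by
  ext ω
  rfl

omit [MeasurableSpace Ω] in
theorem noZZ_true_eq (X : ℕ → Ω → Bool) (m : ℕ) :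
    NoZZ X m ∩ {ω | X m ω = true} = {ω | (fun i : Finset.range (m + 1) => X i ω) ∈
      words m ∩ {s | s ⟨m, Finset.mem_range.mpr (by omega)⟩ = true}} := by
  ext ω
  rfl

omit [MeasurableSpace Ω] in
theorem noZZ_succ_true (X : ℕ → Ω → Bool) (m : ℕ) :
    NoZZ X (m + 1) ∩ {ω | X (m + 1) ω = true} = NoZZ X m ∩ {ω | X (m + 1) ω = true} := by
  ext ω
  constructor
  · rintro ⟨h1, h2⟩
    exact ⟨fun i hi => h1 i (by omega), h2⟩
  · rintro ⟨h1, h2⟩
    refine ⟨fun i hi => ?_, h2⟩
    rcases Nat.lt_succ_iff_lt_or_eq.mp hi with h | h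
    · exact h1 i h
    · subst h
      rintro ⟨_, h3⟩
      have h2' : X (i + 1) ω = true := h2
      rw [h2'] at h3
      exact Bool.noConfusion h3

omit [MeasurableSpace Ω] in
theorem noZZ_succ_false (X : ℕ → Ω → Bool) (m : ℕ) :
    NoZZ X (m + 1) ∩ {ω | X (m + 1) ω = false} =
      (NoZZ X m ∩ {ω | X m ω = true}) ∩ {ω | X (m + 1) ω = false} := by
  ext ω
  constructor
  · rintro ⟨h1, h2⟩
    refine ⟨⟨fun i hi => h1 i (by omega), ?_⟩, h2⟩
    have h3 := h1 m (by omega)
    show X m ω = true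
    by_contra hc
    exact h3 ⟨by simpa using hc, h2⟩
  · rintro ⟨⟨h1, h2⟩, h3⟩
    refine ⟨fun i hi => ?_, h3⟩
    rcases Nat.lt_succ_iff_lt_or_eq.mp hi with h | h
    · exact h1 i h
    · subst h
      rintro ⟨h4, _⟩
      have h2' : X i ω = true := h2
      rw [h2'] at h4
      exact Bool.noConfusion h4

theorem rec_true [IsProbabilityMeasure μ] {X : ℕ → Ω → Bool} (hX : iIndepFun X μ)
    (hm : ∀ t, Measurable (X t)) {p : ℝ} (hp : ∀ t, μ.real {ω | X t ω = true} = p) (m : ℕ) :
    μ.real (NoZZ X (m + 1) ∩ {ω | X (m + 1) ω = true}) = μ.real (NoZZ X m) * p := by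
  rw [noZZ_succ_true, noZZ_eq, step hX hm m _ true, hp]

theorem rec_all [IsProbabilityMeasure μ] {X : ℕ → Ω → Bool} (hX : iIndepFun X μ)
    (hm : ∀ t, Measurable (X t)) {p : ℝ} (hp : ∀ t, μ.real {ω | X t ω = true} = p) (m : ℕ) :
    μ.real (NoZZ X (m + 1)) =
      μ.real (NoZZ X m) * p + μ.real (NoZZ X m ∩ {ω | X m ω = true}) * (1 - p) := by
  have h1 : μ.real (NoZZ X (m + 1)) = μ.real (NoZZ X (m + 1) ∩ {ω | X (m + 1) ω = true}) +
      μ.real (NoZZ X (m + 1) ∩ {ω | X (m + 1) ω = false}) := by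
    have h2 : {ω | X (m + 1) ω = false} = {ω | X (m + 1) ω = true}ᶜ := by
      ext ω
      simp
    have h3 : MeasurableSet {ω | X (m + 1) ω = true} := hm (m + 1) (MeasurableSet.singleton true)
    rw [h2, ← Set.sdiff_eq, measureReal_inter_add_sdiff h3]
  rw [h1, rec_true hX hm hp, noZZ_succ_false, noZZ_true_eq, step hX hm m _ false,
    real_false (hm (m + 1)) (hp (m + 1))]

theorem lower [IsProbabilityMeasure μ] {X : ℕ → Ω → Bool} (hX : iIndepFun X μ)
    (hm : ∀ t, Measurable (X t)) {p : ℝ} (hp : ∀ t, μ.real {ω | X t ω = true} = p)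
    (h0 : 1 / 3 ≤ p) (h1 : p ≤ 1) (m : ℕ) :
    (2 / 3 : ℝ) ^ (m + 1) ≤ μ.real (NoZZ X m) ∧
      p * (2 / 3 : ℝ) ^ m ≤ μ.real (NoZZ X m ∩ {ω | X m ω = true}) := by
  induction m with
  | zero =>
    have h2 : NoZZ X 0 = Set.univ := by
      ext ω
      simp [NoZZ]
    rw [h2, Set.univ_inter, hp, probReal_univ]
    norm_num
  | succ m ih =>
    obtain ⟨ha, hb⟩ := ih
    rw [rec_true hX hm hp, rec_all hX hm hp]
    have hP : (0 : ℝ) < (2 / 3) ^ m := by positivity
    refine ⟨?_, ?_⟩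
    · have h3 : (2 / 3 : ℝ) ^ (m + 1) * p ≤ μ.real (NoZZ X m) * p :=
        mul_le_mul_of_nonneg_right ha (by linarith)
      have h4 : p * (2 / 3 : ℝ) ^ m * (1 - p) ≤
          μ.real (NoZZ X m ∩ {ω | X m ω = true}) * (1 - p) :=
        mul_le_mul_of_nonneg_right hb (by linarith)
      have h5 : 0 ≤ (2 / 3 : ℝ) ^ m * ((p - 1 / 3) * (4 / 3 - p)) :=
        mul_nonneg hP.le (mul_nonneg (by linarith) (by linarith))
      have h6 : (2 / 3 : ℝ) ^ (m + 1) = (2 / 3) ^ m * (2 / 3) := pow_succ _ _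
      have h7 : (2 / 3 : ℝ) ^ (m + 1 + 1) = (2 / 3) ^ m * (2 / 3) * (2 / 3) := by
        rw [pow_succ, pow_succ]
      rw [h6] at h3
      rw [h7]
      nlinarith
    · rw [mul_comm p]
      exact mul_le_mul_of_nonneg_right ha (by linarith)

/-- an i.i.d. sequence is `0` at the times `0, …, m - 1` with probability `(1 - p) ^ m` -/
theorem all_false [IsProbabilityMeasure μ] {Y : ℕ → Ω → Bool} (hY : iIndepFun Y μ)
    (hm : ∀ t, Measurable (Y t)) {p : ℝ} (hp : ∀ t, μ.real {ω | Y t ω = true} = p) (m : ℕ) :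
    μ.real {ω | ∀ i < m, Y i ω = false} = (1 - p) ^ m := by
  have h1 := hY.measure_inter_preimage_eq_mul (Finset.range m) (sets := fun _ => {false})
    (fun _ _ => MeasurableSet.singleton _)
  have h2 : (⋂ i ∈ Finset.range m, Y i ⁻¹' {false}) = {ω | ∀ i < m, Y i ω = false} := by
    ext ω
    simp
  rw [h2] at h1
  rw [Measure.real, h1, ENNReal.toReal_prod]
  have h3 : ∀ i ∈ Finset.range m, (μ (Y i ⁻¹' {false})).toReal = 1 - p :=
    fun i _ => real_false (hm i) (hp i)
  rw [Finset.prod_congr rfl h3, Finset.prod_const, Finset.card_range]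

theorem two_walkers [IsProbabilityMeasure μ] {X Y : ℕ → Ω → Bool} (hX : iIndepFun X μ)
    (hY : iIndepFun Y μ) (hmX : ∀ t, Measurable (X t)) (hmY : ∀ t, Measurable (Y t)) {p : ℝ}
    (hpX : ∀ t, μ.real {ω | X t ω = true} = p) (hpY : ∀ t, μ.real {ω | Y t ω = true} = p)
    (hav : ∀ᵐ ω ∂μ, ∀ t, ¬ (X t ω = true ∧ Y t ω = true) ∧
      ¬ (Y t ω = true ∧ X (t + 1) ω = true)) : p ≤ 1 / 3 := by
  by_contra hc
  push Not at hc
  have hp1 : p ≤ 1 := by
    rw [← hpX 0]
    exact measureReal_le_one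
  have hup : ∀ m, μ.real (NoZZ X m) ≤ (1 - p) ^ m := by
    intro m
    rw [← all_false hY hmY hpY m]
    refine ENNReal.toReal_mono (measure_ne_top _ _) (measure_mono_ae ?_)
    filter_upwards [hav] with ω hω h i hi
    have h1 := h i hi
    obtain ⟨h2, h3⟩ := hω i
    show Y i ω = false
    by_contra hc2
    have hYt : Y i ω = true := by simpa using hc2
    refine h1 ⟨?_, ?_⟩
    · by_contra h4
      exact h2 ⟨by simpa using h4, hYt⟩
    · by_contra h4
      exact h3 ⟨hYt, by simpa using h4⟩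
  have hr1 : (1 - p) / (2 / 3) < 1 := by
    rw [div_lt_one (by norm_num)]
    linarith
  obtain ⟨m, hm⟩ := exists_pow_lt_of_lt_one (show (0 : ℝ) < 2 / 3 by norm_num) hr1
  have h1 := (lower hX hmX hpX hc.le hp1 m).1
  have h2 := hup m
  rw [div_pow, div_lt_iff₀ (by positivity)] at hm
  rw [pow_succ] at h1
  linarith

theorem two_le [IsProbabilityMeasure μ] (hk : 0 < 2) {p : ℝ} {X : Fin 2 → ℕ → Ω → Bool}
    (h : IsCoupling μ hk p X) : p ≤ 1 / 3 := by
  obtain ⟨hm, hi, hp, ha⟩ := h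
  refine two_walkers (hi 0) (hi 1) (hm 0) (hm 1) (hp 0) (hp 1) ?_
  filter_upwards [ha] with ω hω t
  obtain ⟨h1, h2⟩ := no_two hk X ω hω
  exact ⟨h1 t 0 1 (by decide), h2 t 0 1 (by decide)⟩

end

/-! ### the coupling of two walkers for `p = 1 / 3` -/

section Coupling

/-- uniform distribution on three letters -/
noncomputable def U : Measure (Fin 3) := (PMF.uniformOfFintype (Fin 3)).toMeasure

noncomputable instance : IsProbabilityMeasure U := by unfold U; infer_instance

/-- an i.i.d. uniform sequence of letters -/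
noncomputable def P : Measure (ℕ → Fin 3) := Measure.infinitePi (fun _ : ℕ => U)

noncomputable instance : IsProbabilityMeasure P := by unfold P; infer_instance

theorem U_real (S : Finset (Fin 3)) : U.real (S : Set (Fin 3)) = S.card / 3 := by
  unfold U Measure.real
  rw [PMF.toMeasure_uniformOfFintype_apply _ (Set.toFinite _).measurableSet]
  simp [ENNReal.toReal_div]

theorem P_real (n : ℕ) (S : Finset (Fin 3)) :
    P.real {ω | ω n ∈ (S : Set (Fin 3))} = S.card / 3 := by
  rw [← U_real S]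
  have h := (measurePreserving_eval_infinitePi (fun _ : ℕ => U) n).measure_preimage
    (s := (S : Set (Fin 3))) (Set.toFinite _).measurableSet.nullMeasurableSet
  unfold Measure.real P
  rw [← h]
  rfl

theorem coord_indep : iIndepFun (fun (n : ℕ) (ω : ℕ → Fin 3) => ω n) P :=
  iIndepFun_infinitePi (P := fun _ : ℕ => U) (X := fun _ x => x) (fun _ => measurable_id)

/-- the event depends on the letters `0, …, n` only -/
def Dep (n : ℕ) (E : Set (ℕ → Fin 3)) : Prop :=
  ∀ ω ω' : ℕ → Fin 3, (∀ i ≤ n, ω i = ω' i) → (ω ∈ E ↔ ω' ∈ E)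

theorem Dep.eq_preimage {n : ℕ} {E : Set (ℕ → Fin 3)} (h : Dep n E) :
    E = (fun (ω : ℕ → Fin 3) (i : Finset.range (n + 1)) => ω i) ⁻¹'
      {s | (fun i => if hi : i ∈ Finset.range (n + 1) then s ⟨i, hi⟩ else 0) ∈ E} := by
  ext ω
  refine h _ _ fun i hi => ?_
  have hi2 : i ∈ Finset.range (n + 1) := Finset.mem_range.mpr (by omega)
  simp only [hi2, dif_pos]

theorem Dep.measurable {n : ℕ} {E : Set (ℕ → Fin 3)} (h : Dep n E) : MeasurableSet E := by
  rw [h.eq_preimage]
  exact (measurable_pi_lambda _ fun i => measurable_pi_apply _) (Set.toFinite _).measurableSet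

theorem Dep.indep {n : ℕ} {E : Set (ℕ → Fin 3)} (h : Dep n E) (S : Finset (Fin 3)) :
    P.real (E ∩ {ω | ω (n + 1) ∈ (S : Set (Fin 3))}) = P.real E * (S.card / 3) := by
  have hd : Disjoint (Finset.range (n + 1)) {n + 1} := by
    rw [Finset.disjoint_singleton_right, Finset.mem_range]
    omega
  have h1 := (coord_indep.indepFun_finset (Finset.range (n + 1)) {n + 1} hd
    (fun i => measurable_pi_apply i)).measure_inter_preimage_eq_mul
    {s | (fun i => if hi : i ∈ Finset.range (n + 1) then s ⟨i, hi⟩ else 0) ∈ E}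
    {s | s ⟨n + 1, Finset.mem_singleton_self _⟩ ∈ (S : Set (Fin 3))}
    (Set.toFinite _).measurableSet (Set.toFinite _).measurableSet
  have e2 : (fun (ω : ℕ → Fin 3) (i : ({n + 1} : Finset ℕ)) => ω i) ⁻¹'
      {s | s ⟨n + 1, Finset.mem_singleton_self _⟩ ∈ (S : Set (Fin 3))} =
      {ω | ω (n + 1) ∈ (S : Set (Fin 3))} := rfl
  rw [e2, ← h.eq_preimage] at h1
  rw [← P_real (n + 1) S, Measure.real, h1, ENNReal.toReal_mul]
  rfl

/-- The second walker, shifted by one: `W (n + 1)` is its value at time `n`. The first walker is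
at `1` at time `n` if the letter is `2`. -/
def W : ℕ → (ℕ → Fin 3) → Bool
  | 0, ω => decide (ω 0 = 1)
  | n + 1, ω => decide (ω n ≠ 2) && decide (ω (n + 1) ≠ 2) && (!W n ω || decide (ω (n + 1) = 1))

theorem W_congr (n : ℕ) (ω ω' : ℕ → Fin 3) (h : ∀ i ≤ n, ω i = ω' i) : W n ω = W n ω' := by
  induction n with
  | zero => simp only [W, h 0 le_rfl]
  | succ n ih =>
    simp only [W, h n (by omega), h (n + 1) le_rfl, ih fun i hi => h i (by omega)]

theorem W_true_ne (n : ℕ) (ω : ℕ → Fin 3) (h : W n ω = true) : ω n ≠ 2 := by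
  cases n with
  | zero =>
    simp only [W, decide_eq_true_eq] at h
    rw [h]
    decide
  | succ n =>
    simp only [W, Bool.and_eq_true, decide_eq_true_eq] at h
    exact h.1.2

theorem W_meas (n : ℕ) : Measurable (W n) := by
  have h : ∀ b : Bool, MeasurableSet (W n ⁻¹' {b}) := fun b =>
    Dep.measurable (n := n) fun ω ω' hω => by
      simp only [Set.mem_preimage, W_congr n ω ω' hω]
  exact measurable_to_countable' h

/-- letters which give `W (n + 1) = 1` if `W n = b` and the letter `n` is not `2` -/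
def S (b : Bool) : Finset (Fin 3) := if b then {1} else {0, 1}

theorem W_succ (n : ℕ) (ω : ℕ → Fin 3) (b : Bool) (h : W n ω = b) :
    W (n + 1) ω = true ↔ ω n ∈ (({0, 1} : Finset (Fin 3)) : Set (Fin 3)) ∧
      ω (n + 1) ∈ (S b : Set (Fin 3)) := by
  have h2 : ∀ x y : Fin 3, ∀ c : Bool, ((decide (x ≠ 2) && decide (y ≠ 2) &&
      (!c || decide (y = 1))) = true ↔ x ∈ ({0, 1} : Finset (Fin 3)) ∧ y ∈ S c) := by decide
  have h3 := h2 (ω n) (ω (n + 1)) (W n ω)
  simp only [W]
  rw [h] at h3 ⊢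
  simpa using h3

/-- probability of the value `b` -/
noncomputable def pr (b : Bool) : ℝ := if b then 1 / 3 else 2 / 3

/-- conditional probability that the first walker is at `0` -/
noncomputable def hh (b : Bool) : ℝ := if b then 1 else 1 / 2

/-- the letter `n` is not `2`: the first walker is at `0` at time `n` -/
def Z (n : ℕ) : Set (ℕ → Fin 3) := {ω | ω n ∈ (({0, 1} : Finset (Fin 3)) : Set (Fin 3))}

theorem dep_Z (n : ℕ) : Dep n (Z n) := fun ω ω' h => by
  simp only [Z, Set.mem_ofPred_eq, h n le_rfl]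

theorem Dep.inter {n : ℕ} {E F : Set (ℕ → Fin 3)} (hE : Dep n E) (hF : Dep n F) :
    Dep n (E ∩ F) := fun ω ω' h => and_congr (hE ω ω' h) (hF ω ω' h)

theorem mem_Z_of_W (n : ℕ) (ω : ℕ → Fin 3) (h : W n ω = true) : ω ∈ Z n := by
  have h1 := W_true_ne n ω h
  have h2 : ∀ x : Fin 3, x ≠ 2 → x ∈ ({0, 1} : Finset (Fin 3)) := by decide
  exact Finset.mem_coe.mpr (h2 _ h1)

theorem meas_W (n : ℕ) (b : Bool) : MeasurableSet {ω | W n ω = b} :=
  (W_meas n) (MeasurableSet.singleton b)

theorem split (n : ℕ) (B : Set (ℕ → Fin 3)) :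
    P.real B = P.real (B ∩ {ω | W n ω = true}) + P.real (B ∩ {ω | W n ω = false}) := by
  have h2 : {ω | W n ω = false} = {ω | W n ω = true}ᶜ := by
    ext ω
    simp
  rw [h2, ← Set.sdiff_eq, measureReal_inter_add_sdiff (meas_W n true)]

theorem step_true (n : ℕ) (b : Bool) (A : Set (ℕ → Fin 3)) (hA : Dep n A)
    (hAb : ∀ ω ∈ A, W n ω = b) (a : ℝ) (h2 : P.real (A ∩ Z n) = a * hh b) :
    P.real (A ∩ {ω | W (n + 1) ω = true}) = a / 3 := by
  have h3 : A ∩ {ω | W (n + 1) ω = true} =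
      (A ∩ Z n) ∩ {ω | ω (n + 1) ∈ (S b : Set (Fin 3))} := by
    ext ω
    constructor
    · rintro ⟨h4, h5⟩
      have h6 := (W_succ n ω b (hAb ω h4)).mp h5
      exact ⟨⟨h4, h6.1⟩, h6.2⟩
    · rintro ⟨⟨h4, h5⟩, h6⟩
      exact ⟨h4, (W_succ n ω b (hAb ω h4)).mpr ⟨h5, h6⟩⟩
  rw [h3, (hA.inter (dep_Z n)).indep, h2]
  cases b with
  | true => simp [S, hh]; ring
  | false => simp [S, hh]; ring

theorem stepW (n : ℕ) (b : Bool) (A : Set (ℕ → Fin 3)) (hA : Dep n A)
    (hAb : ∀ ω ∈ A, W n ω = b) (a : ℝ) (h1 : P.real A = a)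
    (h2 : P.real (A ∩ Z n) = a * hh b) (c : Bool) :
    P.real (A ∩ {ω | W (n + 1) ω = c}) = a * pr c ∧
      P.real ((A ∩ {ω | W (n + 1) ω = c}) ∩ Z (n + 1)) = a * pr c * hh c := by
  have hT := step_true n b A hA hAb a h2
  have hTZ : A ∩ {ω | W (n + 1) ω = true} ∩ Z (n + 1) = A ∩ {ω | W (n + 1) ω = true} :=
    Set.inter_eq_left.mpr fun ω hω => mem_Z_of_W (n + 1) ω hω.2
  have hs := split (n + 1) A
  have hs2 := split (n + 1) (A ∩ Z (n + 1))
  have hZ : P.real (A ∩ Z (n + 1)) = a * (2 / 3) := by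
    unfold Z
    rw [hA.indep, h1]
    norm_num
  have e1 : A ∩ Z (n + 1) ∩ {ω | W (n + 1) ω = true} = A ∩ {ω | W (n + 1) ω = true} := by
    rw [Set.inter_right_comm, hTZ]
  have e2 : A ∩ Z (n + 1) ∩ {ω | W (n + 1) ω = false} =
      A ∩ {ω | W (n + 1) ω = false} ∩ Z (n + 1) := Set.inter_right_comm _ _ _
  rw [e1, e2, hT, hZ] at hs2
  rw [hT, h1] at hs
  cases c with
  | true =>
    rw [hTZ, hT]
    simp only [pr, hh, if_true]
    constructor <;> ring
  | false =>
    simp only [pr, hh, Bool.false_eq_true, if_false]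
    constructor <;> linarith

theorem base (b : Bool) : P.real {ω | W 0 ω = b} = pr b ∧
    P.real ({ω | W 0 ω = b} ∩ Z 0) = pr b * hh b := by
  have hd : ∀ (x : Fin 3), (decide (x = 1) = b) ↔ x ∈ (if b then {1} else {0, 2} :
      Finset (Fin 3)) := by
    cases b <;> decide
  have hd2 : ∀ (x : Fin 3), (decide (x = 1) = b ∧ x ∈ ({0, 1} : Finset (Fin 3))) ↔
      x ∈ (if b then {1} else {0} : Finset (Fin 3)) := by
    cases b <;> decide
  have e1 : {ω | W 0 ω = b} = {ω : ℕ → Fin 3 | ω 0 ∈ ((if b then {1} else {0, 2} :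
      Finset (Fin 3)) : Set (Fin 3))} := by
    ext ω
    simp only [W, Set.mem_ofPred_eq]
    rw [hd, Finset.mem_coe]
  have e2 : {ω | W 0 ω = b} ∩ Z 0 = {ω : ℕ → Fin 3 | ω 0 ∈ ((if b then {1} else {0} :
      Finset (Fin 3)) : Set (Fin 3))} := by
    ext ω
    simp only [W, Z, Set.mem_inter_iff, Set.mem_ofPred_eq, Finset.mem_coe]
    rw [hd2]
  rw [e2, e1, P_real, P_real]
  cases b with
  | false =>
    simp [pr, hh]
    norm_num
  | true => simp [pr, hh]

theorem marginal (n : ℕ) : ∀ b, P.real {ω | W n ω = b} = pr b ∧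
    P.real ({ω | W n ω = b} ∩ Z n) = pr b * hh b := by
  induction n with
  | zero => exact base
  | succ n ih =>
    intro c
    have hD : ∀ b, Dep n {ω | W n ω = b} := fun b ω ω' h => by
      simp only [Set.mem_ofPred_eq, W_congr n ω ω' h]
    have ht := stepW n true _ (hD true) (fun _ h => h) _ (ih true).1 (ih true).2 c
    have hf := stepW n false _ (hD false) (fun _ h => h) _ (ih false).1 (ih false).2 c
    have h1 := split n {ω | W (n + 1) ω = c}
    have h2 := split n ({ω | W (n + 1) ω = c} ∩ Z (n + 1))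
    rw [Set.inter_comm _ {ω | W n ω = true}, Set.inter_comm _ {ω | W n ω = false},
      ht.1, hf.1] at h1
    rw [Set.inter_comm _ {ω | W n ω = true}, Set.inter_comm _ {ω | W n ω = false},
      ← Set.inter_assoc, ← Set.inter_assoc, ht.2, hf.2] at h2
    rw [h1, h2]
    simp only [pr, if_true, Bool.false_eq_true, if_false]
    constructor <;> ring

/-- the event that `W` starts with the word `u 0, …, u n` -/
def E (n : ℕ) (u : ℕ → Bool) : Set (ℕ → Fin 3) := {ω | ∀ i ≤ n, W i ω = u i}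

theorem E_succ (n : ℕ) (u : ℕ → Bool) :
    E (n + 1) u = E n u ∩ {ω | W (n + 1) ω = u (n + 1)} := by
  ext ω
  constructor
  · intro h
    exact ⟨fun i hi => h i (by omega), h (n + 1) le_rfl⟩
  · rintro ⟨h1, h2⟩ i hi
    rcases Nat.le_succ_iff.mp hi with h | h
    · exact h1 i h
    · subst h
      exact h2

theorem dep_E (n : ℕ) (u : ℕ → Bool) : Dep n (E n u) := fun ω ω' h => by
  simp only [E, Set.mem_ofPred_eq]
  refine forall_congr' fun i => forall_congr' fun hi => ?_
  rw [W_congr i ω ω' fun j hj => h j (by omega)]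

theorem word (u : ℕ → Bool) (n : ℕ) : P.real (E n u) = ∏ i ∈ Finset.range (n + 1), pr (u i) ∧
    P.real (E n u ∩ Z n) = (∏ i ∈ Finset.range (n + 1), pr (u i)) * hh (u n) := by
  induction n with
  | zero =>
    have h1 : E 0 u = {ω | W 0 ω = u 0} := by
      ext ω
      simp [E]
    rw [h1, Finset.prod_range_one]
    exact base (u 0)
  | succ n ih =>
    rw [E_succ, Finset.prod_range_succ]
    exact stepW n (u n) _ (dep_E n u) (fun ω h => h n le_rfl) _ ih.1 ih.2 (u (n + 1))

theorem W_indep : iIndepFun W P := by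
  rw [iIndepFun_iff_finset]
  intro s
  have hN : iIndepFun (fun i : Fin (s.sup id + 1) => W i) P := by
    refine (iIndepFun_iff_map_fun_eq_pi_map (f := fun i : Fin (s.sup id + 1) => W i)
      fun i => (W_meas i).aemeasurable).mpr ?_
    refine Measure.ext_iff_singleton.mpr fun a => ?_
    rw [Measure.pi_singleton, Measure.map_apply (measurable_pi_lambda
      (fun ω (i : Fin (s.sup id + 1)) => W i ω) fun i => W_meas i) (MeasurableSet.singleton a)]
    have h1 : (fun (ω : ℕ → Fin 3) (i : Fin (s.sup id + 1)) => W i ω) ⁻¹' {a} =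
        E (s.sup id) (fun i => if hi : i < s.sup id + 1 then a ⟨i, hi⟩ else true) := by
      ext ω
      simp only [Set.mem_preimage, Set.mem_singleton_iff, E, Set.mem_ofPred_eq]
      constructor
      · intro h i hi
        have hi2 : i < s.sup id + 1 := by omega
        rw [dif_pos hi2, ← h]
      · intro h
        ext1 i
        have h3 := h i (by have := i.2; omega)
        rw [dif_pos i.2] at h3
        exact h3
    refine (ENNReal.toReal_eq_toReal_iff' (measure_ne_top _ _)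
      (ENNReal.prod_ne_top fun i _ => measure_ne_top _ _)).1 ?_
    rw [ENNReal.toReal_prod, h1]
    refine (word _ _).1.trans ?_
    rw [Finset.prod_range]
    refine Finset.prod_congr rfl fun i _ => ?_
    rw [dif_pos i.2, Measure.map_apply (W_meas i) (MeasurableSet.singleton _)]
    exact ((marginal i (a i)).1).symm
  have hlt : ∀ i : s, (i : ℕ) < s.sup id + 1 := fun i =>
    Nat.lt_succ_of_le (Finset.le_sup (f := id) i.2)
  exact hN.precomp (g := fun i : s => (⟨i, hlt i⟩ : Fin (s.sup id + 1)))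
    fun i j h => Subtype.ext (Fin.mk.inj_iff.mp h)


/-- the two walkers -/
def XX (j : Fin 2) (t : ℕ) (ω : ℕ → Fin 3) : Bool :=
  if j = 0 then decide (ω t = 2) else W (t + 1) ω

theorem avoid_XX (hk : 0 < 2) (ω : ℕ → Fin 3) (a b : ℕ) (hab : a < b) (hb : b < a + 2) :
    ¬ (interleaved hk XX a ω = true ∧ interleaved hk XX b ω = true) := by
  have hb1 : b = a + 1 := by omega
  subst hb1
  obtain ⟨t, ht⟩ : ∃ t, a = t * 2 + 0 ∨ a = t * 2 + 1 := ⟨a / 2, by omega⟩
  rcases ht with ht | ht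
  · have h1 : interleaved hk XX a ω = XX 0 t ω := by
      rw [ht]
      exact interleaved_eq hk XX 0 t ω
    have h2 : interleaved hk XX (a + 1) ω = XX 1 t ω := by
      rw [ht]
      exact interleaved_eq hk XX 1 t ω
    rw [h1, h2]
    rintro ⟨h3, h4⟩
    have h5 : ω t = 2 := by simpa [XX] using h3
    have h6 : W (t + 1) ω = true := by simpa [XX] using h4
    simp [W, h5] at h6
  · have h1 : interleaved hk XX a ω = XX 1 t ω := by
      rw [ht]
      exact interleaved_eq hk XX 1 t ω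
    have h2 : interleaved hk XX (a + 1) ω = XX 0 (t + 1) ω := by
      rw [show a + 1 = (t + 1) * 2 + 0 by omega]
      exact interleaved_eq hk XX 0 (t + 1) ω
    rw [h1, h2]
    rintro ⟨h3, h4⟩
    have h5 : ω (t + 1) = 2 := by simpa [XX] using h4
    have h6 : W (t + 1) ω = true := by simpa [XX] using h3
    exact W_true_ne (t + 1) ω h6 h5

theorem coupling_third : HasCoupling 2 (1 / 3) := by
  refine ⟨by norm_num, ℕ → Fin 3, inferInstance, P, XX, inferInstance, ?_, ?_, ?_, ?_⟩
  · intro j t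
    by_cases h : j = 0
    · have h1 : XX j t = (fun x : Fin 3 => decide (x = 2)) ∘ fun ω : ℕ → Fin 3 => ω t := by
        ext ω
        simp [XX, h]
      rw [h1]
      exact (measurable_of_countable _).comp (measurable_pi_apply t)
    · have h1 : XX j t = W (t + 1) := by
        ext ω
        simp [XX, h]
      rw [h1]
      exact W_meas (t + 1)
  · intro j
    by_cases h : j = 0
    · have h1 : XX j = fun t => (fun x : Fin 3 => decide (x = 2)) ∘ fun ω : ℕ → Fin 3 => ω t := by
        ext t ω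
        simp [XX, h]
      rw [h1]
      exact coord_indep.comp (fun _ x => decide (x = 2)) fun _ => measurable_of_countable _
    · have h1 : XX j = fun t => W (t + 1) := by
        ext t ω
        simp [XX, h]
      rw [h1]
      exact W_indep.precomp (g := fun t : ℕ => t + 1) fun x y hxy => Nat.succ_injective hxy
  · intro j t
    by_cases h : j = 0
    · have h1 : {ω | XX j t ω = true} =
          {ω : ℕ → Fin 3 | ω t ∈ (({2} : Finset (Fin 3)) : Set (Fin 3))} := by
        ext ω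
        simp [XX, h]
      rw [h1, P_real]
      simp
    · have h1 : {ω | XX j t ω = true} = {ω | W (t + 1) ω = true} := by
        ext ω
        simp [XX, h]
      rw [h1, (marginal (t + 1) true).1]
      simp [pr]
  · exact Filter.Eventually.of_forall fun ω a b hab hb => avoid_XX _ ω a b hab hb

end Coupling

theorem bound_first {k : ℕ} {p : ℝ} (h : HasCoupling k p) :
    ((k : ℝ) - 1) * p ≤ (1 - p) ^ 2 ∧ 0 ≤ p ∧ p ≤ 1 := by
  obtain ⟨hk, Ω, mΩ, μ, X, hμ, h⟩ := h
  refine ⟨first_moment hk h, ?_, ?_⟩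
  · rw [← h.2.2.1 ⟨0, hk⟩ 0]
    exact measureReal_nonneg
  · rw [← h.2.2.1 ⟨0, hk⟩ 0]
    exact measureReal_le_one

theorem le_root {k : ℕ} (hk : 2 ≤ k) {p : ℝ} (h : HasCoupling k p) :
    p ≤ ((k : ℝ) + 1 - √(((k : ℝ) - 1) * (k + 3))) / 2 := by
  obtain ⟨h1, h0, h2⟩ := bound_first h
  have hk' : (2 : ℝ) ≤ k := by exact_mod_cast hk
  set r : ℝ := √(((k : ℝ) - 1) * (k + 3)) with hr
  have hr0 : 0 < r := Real.sqrt_pos.mpr (mul_pos (by linarith) (by linarith))
  have hr2 : r ^ 2 = ((k : ℝ) - 1) * (k + 3) :=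
    Real.sq_sqrt (mul_nonneg (by linarith) (by linarith))
  by_contra hc
  push Not at hc
  have h3 : 0 < (p - ((k : ℝ) + 1 - r) / 2) * (((k : ℝ) + 1 + r) / 2 - p) :=
    mul_pos (by linarith) (by linarith)
  nlinarith

theorem root_lt {k : ℕ} (hk : 2 ≤ k) :
    ((k : ℝ) + 1 - √(((k : ℝ) - 1) * (k + 3))) / 2 < 1 / k := by
  have hk' : (2 : ℝ) ≤ k := by exact_mod_cast hk
  have hk0 : (0 : ℝ) < k := by linarith
  have h1 : (k : ℝ) + 1 - 2 / k < √(((k : ℝ) - 1) * (k + 3)) := by
    refine Real.lt_sqrt_of_sq_lt ?_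
    have h2 : (2 : ℝ) / k * k = 2 := div_mul_cancel₀ _ hk0.ne'
    have h3 : (2 : ℝ) / k ≤ 1 := by
      rw [div_le_one hk0]
      exact hk'
    have h4 : 0 < (2 : ℝ) / k := div_pos two_pos hk0
    nlinarith
  have h5 : (2 : ℝ) / k = 2 * (1 / k) := by ring
  rw [h5] at h1
  linarith

end Pool.Agent.Q15.AvoidB
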